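import Mathlib
import Pool.Agent.Helper28.TT.Leaf

/-! Soundness of one leaf over a product cell: corners of the forms times corners of the
parameters of the cut. -/

set_option autoImplicit false

namespace Pool.Agent.Helper66.FL

open Matrix
open Pool.Agent.Helper28.TT

variable {n : Type*} [Fintype n] [DecidableEq n]

omit [DecidableEq n] in
/-- the leaf function is a square: `Y A Yᵀ` with `Y = C + X ᵀ / a` -/
theorem leaf_square (R : Matrix n n ℝ) (A : Matrix (Fin 3) (Fin 3) ℝ) (hA : Aᵀ = A)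
    (C M : Matrix n (Fin 3) ℝ) (X : Matrix (Fin 3) n ℝ) (hX : A * X = Mᵀ) (a : ℝ) (ha : 0 < a) :
    a * trace (R * ((C + a⁻¹ • Xᵀ) * A * (C + a⁻¹ • Xᵀ)ᵀ)) =
      a * trace (R * (C * A * Cᵀ)) + a⁻¹ * trace (R * (M * X)) +
        trace (R * (C * Mᵀ + M * Cᵀ)) := by
  have hXt : Xᵀ * A = M := by
    have := congrArg transpose hX
    simpa [Matrix.transpose_mul, hA] using this
  have e : (C + a⁻¹ • Xᵀ) * A * (C + a⁻¹ • Xᵀ)ᵀ =
      C * A * Cᵀ + a⁻¹ • (C * Mᵀ) + a⁻¹ • (M * Cᵀ) + (a⁻¹ * a⁻¹) • (M * X) := by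
    rw [Matrix.transpose_add, Matrix.transpose_smul, Matrix.transpose_transpose, Matrix.add_mul,
      Matrix.smul_mul, hXt, Matrix.add_mul, Matrix.mul_add, Matrix.mul_add, Matrix.mul_smul,
      Matrix.mul_assoc C A X, hX, Matrix.smul_mul, Matrix.smul_mul, Matrix.mul_smul, smul_smul]
    abel
  rw [e]
  simp only [Matrix.mul_add, Matrix.mul_smul, trace_add, trace_smul, smul_eq_mul]
  have := ha.ne'
  field_simp
  ring

/-- convexity of `Y ↦ tr R Y A Yᵀ` -/
theorem trace_convex {ω : Type*} [Fintype ω] (R : Matrix n n ℝ) (hR : R.PosSemidef)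
    (A : Matrix (Fin 3) (Fin 3) ℝ) (hA : A.PosSemidef) (rho : ω → ℝ) (hrho : ∀ w, 0 ≤ rho w)
    (hrs : ∑ w, rho w = 1) (Y : ω → Matrix n (Fin 3) ℝ) :
    trace (R * ((∑ w, rho w • Y w) * A * (∑ w, rho w • Y w)ᵀ)) ≤
      ∑ w, rho w * trace (R * (Y w * A * (Y w)ᵀ)) := by
  obtain ⟨B, hB⟩ : ∃ B, B = ∑ w, rho w • Y w := ⟨_, rfl⟩
  rw [← hB]
  have h0 : ∀ w, 0 ≤ trace (R * (Y w * A * (Y w)ᵀ)) - trace (R * (Y w * A * Bᵀ)) -
      trace (R * (B * A * (Y w)ᵀ)) + trace (R * (B * A * Bᵀ)) := by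
    intro w
    have h1 := trace_conj_nonneg R A ((Y w - B)ᵀ) hR hA
    have h2 : (Y w - B)ᵀᵀ * A * (Y w - B)ᵀ =
        Y w * A * (Y w)ᵀ - Y w * A * Bᵀ - B * A * (Y w)ᵀ + B * A * Bᵀ := by
      rw [Matrix.transpose_transpose, Matrix.transpose_sub, Matrix.sub_mul, Matrix.sub_mul,
        Matrix.mul_sub, Matrix.mul_sub]
      abel
    rw [h2] at h1
    simp only [Matrix.mul_add, Matrix.mul_sub, trace_add, trace_sub] at h1
    linarith
  have h3 : ∑ w, rho w * trace (R * (Y w * A * Bᵀ)) = trace (R * (B * A * Bᵀ)) := by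
    have e : ∑ w, rho w * trace (R * (Y w * A * Bᵀ)) =
        trace (R * ((∑ w, rho w • Y w) * A * Bᵀ)) := by
      rw [Matrix.sum_mul, Matrix.sum_mul, Matrix.mul_sum, trace_sum]
      refine Finset.sum_congr rfl fun w _ => ?_
      rw [Matrix.smul_mul, Matrix.smul_mul, Matrix.mul_smul, trace_smul, smul_eq_mul]
    rw [e, ← hB]
  have h4 : ∑ w, rho w * trace (R * (B * A * (Y w)ᵀ)) = trace (R * (B * A * Bᵀ)) := by
    have e : ∑ w, rho w * trace (R * (B * A * (Y w)ᵀ)) =
        trace (R * (B * A * (∑ w, rho w • Y w)ᵀ)) := by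
      rw [Matrix.transpose_sum, Matrix.mul_sum, Matrix.mul_sum, trace_sum]
      refine Finset.sum_congr rfl fun w _ => ?_
      rw [Matrix.transpose_smul, Matrix.mul_smul, Matrix.mul_smul, trace_smul, smul_eq_mul]
    rw [e, ← hB]
  have h5 : 0 ≤ ∑ w, rho w * (trace (R * (Y w * A * (Y w)ᵀ)) - trace (R * (Y w * A * Bᵀ)) -
      trace (R * (B * A * (Y w)ᵀ)) + trace (R * (B * A * Bᵀ))) :=
    Finset.sum_nonneg fun w _ => mul_nonneg (hrho w) (h0 w)
  have h6 : ∑ w, rho w * (trace (R * (Y w * A * (Y w)ᵀ)) - trace (R * (Y w * A * Bᵀ)) -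
      trace (R * (B * A * (Y w)ᵀ)) + trace (R * (B * A * Bᵀ))) =
      ∑ w, rho w * trace (R * (Y w * A * (Y w)ᵀ)) - ∑ w, rho w * trace (R * (Y w * A * Bᵀ)) -
      ∑ w, rho w * trace (R * (B * A * (Y w)ᵀ)) + (∑ w, rho w) * trace (R * (B * A * Bᵀ)) := by
    rw [Finset.sum_mul, ← Finset.sum_sub_distrib, ← Finset.sum_sub_distrib,
      ← Finset.sum_add_distrib]
    exact Finset.sum_congr rfl fun w _ => by ring
  rw [h6, h3, h4, hrs] at h5
  linarith

/-- **Soundness of a leaf over a product cell.**  The form `Fᵀ F` is in the cone of the corners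
`A v` (with given scales `a v > 0`), the coefficients `C, M, κ, μ` of the combined facts are the
convex combination `ρ` of their values at the corners `w` of the parameters. -/
theorem leaf_false_w {ι ω : Type*} [Fintype ι] [Fintype ω] (F : Matrix n (Fin 3) ℝ)
    (Z : Matrix (Fin 3) (Fin 3) ℝ) (P R : Matrix n n ℝ) (hZ : (Fᵀ * F) * Z = 1)
    (hPR : P * R = 1) (hP : Pᵀ = P) (hR : R.PosSemidef)
    (lam : ι → ℝ) (hlam : ∀ v, 0 ≤ lam v) (A : ι → Matrix (Fin 3) (Fin 3) ℝ)
    (hF : Fᵀ * F = ∑ v, lam v • A v) (hA : ∀ v, (A v).PosSemidef)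
    (rho : ω → ℝ) (hrho : ∀ w, 0 ≤ rho w) (hrs : ∑ w, rho w = 1)
    (C M : ω → Matrix n (Fin 3) ℝ) (X : ι → ω → Matrix (Fin 3) n ℝ)
    (hX : ∀ v w, A v * X v w = (M w)ᵀ) (a : ι → ℝ) (ha : ∀ v, 0 < a v)
    (D κ μ : ω → ℝ)
    (hK : ∀ v w, trace P + a v * trace (R * (C w * A v * (C w)ᵀ)) +
      (a v)⁻¹ * trace (R * (M w * X v w)) + trace (R * (C w * (M w)ᵀ + M w * (C w)ᵀ)) ≤ D w)
    (hκ0 : ∀ w, 0 ≤ κ w) (hμ0 : ∀ w, 0 ≤ μ w) (hD : ∀ w, D w ^ 2 < 16 * (κ w * μ w))
    (hκ : ∑ w, rho w * κ w ≤ trace (Fᵀ * ∑ w, rho w • C w))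
    (hμ : ∑ w, rho w * μ w ≤ trace ((F * Z)ᵀ * ∑ w, rho w • M w)) : False := by
  obtain ⟨Cb, hCb⟩ : ∃ Cb, Cb = ∑ w, rho w • C w := ⟨_, rfl⟩
  obtain ⟨Mb, hMb⟩ : ∃ Mb, Mb = ∑ w, rho w • M w := ⟨_, rfl⟩
  obtain ⟨Db, hDb⟩ : ∃ Db, Db = ∑ w, rho w * D w := ⟨_, rfl⟩
  rw [← hCb] at hκ
  rw [← hMb] at hμ
  have hAs : ∀ v, (A v)ᵀ = A v := fun v => by
    have := (hA v).isHermitian
    simpa [Matrix.IsHermitian] using this
  have hXb : ∀ v, A v * (∑ w, rho w • X v w) = Mbᵀ := by
    intro v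
    rw [hMb, Matrix.transpose_sum, Matrix.mul_sum]
    refine Finset.sum_congr rfl fun w _ => ?_
    rw [Matrix.mul_smul, hX, Matrix.transpose_smul]
  -- the bound at the corners of the form
  have hKb : ∀ v, a v * trace (R * (Cb * A v * Cbᵀ)) +
      (a v)⁻¹ * trace (R * (Mb * ∑ w, rho w • X v w)) + trace (R * (Cb * Mbᵀ + Mb * Cbᵀ)) ≤
      Db - trace P := by
    intro v
    rw [← leaf_square R (A v) (hAs v) Cb Mb _ (hXb v) (a v) (ha v)]
    have e1 : Cb + (a v)⁻¹ • (∑ w, rho w • X v w)ᵀ =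
        ∑ w, rho w • (C w + (a v)⁻¹ • (X v w)ᵀ) := by
      rw [hCb, Matrix.transpose_sum, Finset.smul_sum, ← Finset.sum_add_distrib]
      refine Finset.sum_congr rfl fun w _ => ?_
      rw [Matrix.transpose_smul, smul_add, smul_comm]
    rw [e1]
    have h1 := trace_convex R hR (A v) (hA v) rho hrho hrs
      (fun w => C w + (a v)⁻¹ • (X v w)ᵀ)
    have h2 : a v * trace (R * ((∑ w, rho w • (C w + (a v)⁻¹ • (X v w)ᵀ)) * A v *
        (∑ w, rho w • (C w + (a v)⁻¹ • (X v w)ᵀ))ᵀ)) ≤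
        ∑ w, rho w * (D w - trace P) := by
      calc a v * trace (R * ((∑ w, rho w • (C w + (a v)⁻¹ • (X v w)ᵀ)) * A v *
            (∑ w, rho w • (C w + (a v)⁻¹ • (X v w)ᵀ))ᵀ))
          ≤ a v * ∑ w, rho w * trace (R * ((C w + (a v)⁻¹ • (X v w)ᵀ) * A v *
            (C w + (a v)⁻¹ • (X v w)ᵀ)ᵀ)) := mul_le_mul_of_nonneg_left h1 (ha v).le
        _ = ∑ w, rho w * (a v * trace (R * ((C w + (a v)⁻¹ • (X v w)ᵀ) * A v *
            (C w + (a v)⁻¹ • (X v w)ᵀ)ᵀ))) := by
            rw [Finset.mul_sum]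
            exact Finset.sum_congr rfl fun w _ => by ring
        _ ≤ ∑ w, rho w * (D w - trace P) := by
            refine Finset.sum_le_sum fun w _ => mul_le_mul_of_nonneg_left ?_ (hrho w)
            rw [leaf_square R (A v) (hAs v) (C w) (M w) (X v w) (hX v w) (a v) (ha v)]
            have := hK v w
            linarith
    have h3 : ∑ w, rho w * (D w - trace P) = Db - trace P := by
      rw [hDb]
      have e : ∀ w, rho w * (D w - trace P) = rho w * D w - rho w * trace P := fun w => by ring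
      rw [Finset.sum_congr rfl fun w _ => e w, Finset.sum_sub_distrib, ← Finset.sum_mul, hrs,
        one_mul]
    linarith
  obtain ⟨q, hq⟩ : ∃ q : ℝ, q = ∑ v, lam v / a v := ⟨_, rfl⟩
  have hq0 : 0 ≤ q := by
    rw [hq]
    exact Finset.sum_nonneg fun v _ => div_nonneg (hlam v) (ha v).le
  have hq1 : q ≠ 0 := by
    intro h0
    rw [hq, Finset.sum_eq_zero_iff_of_nonneg fun v _ => div_nonneg (hlam v) (ha v).le] at h0
    have h1 : Fᵀ * F = 0 := by
      rw [hF]
      refine Finset.sum_eq_zero fun v hv => ?_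
      have h3 : lam v = 0 := by
        rcases div_eq_zero_iff.mp (h0 v hv) with h | h
        · exact h
        · exact absurd h (ha v).ne'
      rw [h3, zero_smul]
    rw [h1, Matrix.zero_mul] at hZ
    have h2 := congrFun (congrFun hZ 0) 0
    simp at h2
  have hqp : 0 < q := lt_of_le_of_ne hq0 (Ne.symm hq1)
  obtain ⟨s, hs⟩ : ∃ s : ℝ, s = Real.sqrt q := ⟨_, rfl⟩
  have hs0 : 0 < s := by rw [hs]; exact Real.sqrt_pos.mpr hqp
  have hss : s * s = q := by rw [hs]; exact Real.mul_self_sqrt hq0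
  have hF1 : (s⁻¹ • F)ᵀ * (s⁻¹ • F) = ∑ v, (lam v / a v / q) • (a v • A v) := by
    rw [Matrix.transpose_smul, Matrix.smul_mul, Matrix.mul_smul, smul_smul, hF, Finset.smul_sum]
    refine Finset.sum_congr rfl fun v _ => ?_
    rw [smul_smul, smul_smul]
    congr 1
    rw [← hss]
    have := (ha v).ne'
    have := hs0.ne'
    field_simp
  have hZ1 : ((s⁻¹ • F)ᵀ * (s⁻¹ • F)) * (q • Z) = 1 := by
    simp only [Matrix.transpose_smul, Matrix.smul_mul, Matrix.mul_smul, smul_smul, hZ]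
    rw [← hss]
    convert one_smul ℝ (1 : Matrix (Fin 3) (Fin 3) ℝ) using 2
    have := hs0.ne'
    field_simp
  have key := leaf_bound (s⁻¹ • F) Cb Mb (q • Z) P R hZ1 hPR hP hR
    (fun v => lam v / a v / q) (fun v => div_nonneg (div_nonneg (hlam v) (ha v).le) hq0)
    (by rw [← Finset.sum_div, ← hq, div_self hq1])
    (fun v => a v • A v) (fun v => (a v)⁻¹ • ∑ w, rho w • X v w) hF1
    (fun v => (hA v).smul (ha v).le)
    (fun v => by
      rw [Matrix.smul_mul, Matrix.mul_smul, smul_smul, mul_inv_cancel₀ (ha v).ne', one_smul,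
        hXb v])
    (Db - trace P) (fun v => by
      have e1 : trace (R * (Cb * (a v • A v) * Cbᵀ + Cb * Mbᵀ + Mb * Cbᵀ +
          Mb * ((a v)⁻¹ • ∑ w, rho w • X v w))) =
          a v * trace (R * (Cb * A v * Cbᵀ)) + (a v)⁻¹ * trace (R * (Mb * ∑ w, rho w • X v w)) +
          trace (R * (Cb * Mbᵀ + Mb * Cbᵀ)) := by
        simp only [Matrix.mul_smul, Matrix.smul_mul, Matrix.mul_add, trace_add, trace_smul,
          smul_eq_mul]
        ring
      rw [e1]
      exact hKb v)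
  have e2 : trace ((s⁻¹ • F)ᵀ * Cb) = s⁻¹ * trace (Fᵀ * Cb) := by
    rw [Matrix.transpose_smul, Matrix.smul_mul, trace_smul, smul_eq_mul]
  have e3 : trace ((s⁻¹ • F * (q • Z))ᵀ * Mb) = s * trace ((F * Z)ᵀ * Mb) := by
    rw [Matrix.smul_mul, Matrix.mul_smul, smul_smul, Matrix.transpose_smul, Matrix.smul_mul,
      trace_smul, smul_eq_mul, ← hss]
    congr 1
    have := hs0.ne'
    field_simp
  rw [e2, e3] at key
  have h4 : s⁻¹ * ∑ w, rho w * κ w ≤ s⁻¹ * trace (Fᵀ * Cb) :=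
    mul_le_mul_of_nonneg_left hκ (inv_nonneg.mpr hs0.le)
  have h5 : s * ∑ w, rho w * μ w ≤ s * trace ((F * Z)ᵀ * Mb) :=
    mul_le_mul_of_nonneg_left hμ hs0.le
  have h6 : ∑ w, rho w * (2 * (s⁻¹ * κ w + s * μ w)) ≤ ∑ w, rho w * D w := by
    have e : ∑ w, rho w * (2 * (s⁻¹ * κ w + s * μ w)) =
        2 * (s⁻¹ * ∑ w, rho w * κ w + s * ∑ w, rho w * μ w) := by
      rw [Finset.mul_sum, Finset.mul_sum, ← Finset.sum_add_distrib, Finset.mul_sum]
      exact Finset.sum_congr rfl fun w _ => by ring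
    rw [e, ← hDb]
    linarith
  have h7 : ∀ w, D w < 2 * (s⁻¹ * κ w + s * μ w) := by
    intro w
    have h8 : (s⁻¹ * κ w) * (s * μ w) = κ w * μ w := by
      have := hs0.ne'
      field_simp
    have h9 : 0 ≤ s⁻¹ * κ w + s * μ w := by
      have := hκ0 w
      have := hμ0 w
      positivity
    have h10 := hD w
    by_contra hcon
    push Not at hcon
    nlinarith [sq_nonneg (s⁻¹ * κ w - s * μ w)]
  -- some weight is positive
  have h11 : ∃ w, 0 < rho w := by
    by_contra hcon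
    push Not at hcon
    have : ∑ w, rho w ≤ 0 := Finset.sum_nonpos fun w _ => hcon w
    linarith
  obtain ⟨w0, hw0⟩ := h11
  have h12 : ∑ w, rho w * D w < ∑ w, rho w * (2 * (s⁻¹ * κ w + s * μ w)) := by
    refine Finset.sum_lt_sum (fun w _ => mul_le_mul_of_nonneg_left (h7 w).le (hrho w))
      ⟨w0, Finset.mem_univ _, mul_lt_mul_of_pos_left (h7 w0) hw0⟩
  linarith

/-- the corners of the outer triangle of an arc of the hyperbola -/
noncomputable def arcT (x y : ℝ) : Fin 3 → ℝ := ![x, y, 2 * x * y / (x + y)]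

/-- the second coordinates of the corners of an arc of the hyperbola -/
noncomputable def arcU (x y : ℝ) : Fin 3 → ℝ := ![1 / x, 1 / y, 2 / (x + y)]

/-- **an arc of the hyperbola lies in its outer triangle** -/
theorem arc (x y t : ℝ) (hx : 0 < x) (h1 : x ≤ t) (h2 : t ≤ y) :
    ∃ rho : Fin 3 → ℝ, (∀ i, 0 ≤ rho i) ∧ ∑ i, rho i = 1 ∧
      ∑ i, rho i * arcT x y i = t ∧ ∑ i, rho i * arcU x y i = 1 / t := by
  rcases eq_or_lt_of_le (h1.trans h2) with hxy | hxy
  · have ht : t = x := le_antisymm (by rw [hxy]; exact h2) h1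
    refine ⟨![1, 0, 0], ?_, ?_, ?_, ?_⟩
    · intro i
      fin_cases i <;> simp
    · simp [Fin.sum_univ_three]
    · simp [Fin.sum_univ_three, arcT, ht]
    · simp [Fin.sum_univ_three, arcU, ht]
  · have ht : 0 < t := lt_of_lt_of_le hx h1
    have hy : 0 < y := lt_trans hx hxy
    have hd : 0 < t * (y - x) ^ 2 := mul_pos ht (pow_pos (by linarith) 2)
    have hn : y - x ≠ 0 := by
      have : 0 < y - x := by linarith
      exact this.ne'
    have hxy' : x + y ≠ 0 := (add_pos hx hy).ne'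
    refine ⟨![(y - t) ^ 2 * x / (t * (y - x) ^ 2), (t - x) ^ 2 * y / (t * (y - x) ^ 2),
      (x + y) * (t - x) * (y - t) / (t * (y - x) ^ 2)], ?_, ?_, ?_, ?_⟩
    · intro i
      fin_cases i
      · exact div_nonneg (mul_nonneg (sq_nonneg _) hx.le) hd.le
      · exact div_nonneg (mul_nonneg (sq_nonneg _) hy.le) hd.le
      · exact div_nonneg (mul_nonneg (mul_nonneg (add_pos hx hy).le (by linarith))
          (by linarith)) hd.le
    · simp only [Fin.sum_univ_three, Matrix.cons_val_zero, Matrix.cons_val_one, Matrix.cons_val]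
      have := ht.ne'
      field_simp
      ring
    · simp only [Fin.sum_univ_three, arcT, Matrix.cons_val_zero, Matrix.cons_val_one,
        Matrix.cons_val]
      have := ht.ne'
      field_simp
      ring
    · simp only [Fin.sum_univ_three, arcU, Matrix.cons_val_zero, Matrix.cons_val_one,
        Matrix.cons_val]
      have := ht.ne'
      have := hx.ne'
      have := hy.ne'
      field_simp
      ring

section product

variable {J : Type*} [Fintype J] [DecidableEq J] {K : J → Type*} [∀ j, Fintype (K j)]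

/-- the product weights sum to one -/
theorem prod_weight_sum (rho : ∀ j, K j → ℝ) (h1 : ∀ j, ∑ i, rho j i = 1) :
    ∑ w : (∀ j, K j), ∏ j, rho j (w j) = 1 := by
  rw [← Fintype.prod_sum]
  exact Finset.prod_eq_one fun j _ => h1 j

/-- the marginals of the product weights -/
theorem prod_weight_coord {E : Type*} [AddCommGroup E] [Module ℝ E] (rho : ∀ j, K j → ℝ)
    (h1 : ∀ j, ∑ i, rho j i = 1) (j0 : J) (g : K j0 → E) :
    ∑ w : (∀ j, K j), (∏ j, rho j (w j)) • g (w j0) = ∑ i, rho j0 i • g i := by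
  classical
  have h2 : ∀ i : K j0, ∑ w : (∀ j, K j), (∏ j, rho j (w j)) * (if w j0 = i then 1 else 0) =
      rho j0 i := by
    intro i
    have e : ∀ w : (∀ j, K j), (∏ j, rho j (w j)) * (if w j0 = i then (1 : ℝ) else 0) =
        ∏ j, (if h : j = j0 then (if h ▸ w j = i then rho j (w j) else 0) else rho j (w j)) := by
      intro w
      rw [← Finset.mul_prod_erase Finset.univ _ (Finset.mem_univ j0),
        ← Finset.mul_prod_erase Finset.univ
          (fun j => if h : j = j0 then (if h ▸ w j = i then rho j (w j) else 0)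
            else rho j (w j)) (Finset.mem_univ j0)]
      have e1 : ∏ j ∈ Finset.univ.erase j0,
          (if h : j = j0 then (if h ▸ w j = i then rho j (w j) else 0) else rho j (w j)) =
          ∏ j ∈ Finset.univ.erase j0, rho j (w j) := by
        refine Finset.prod_congr rfl fun j hj => ?_
        rw [dif_neg (Finset.ne_of_mem_erase hj)]
      rw [e1, dif_pos rfl]
      by_cases hw : w j0 = i
      · simp [hw]
      · simp [hw]
    rw [Finset.sum_congr rfl fun w _ => e w,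
      ← Fintype.prod_sum (fun j (k : K j) =>
        if h : j = j0 then (if h ▸ k = i then rho j k else 0) else rho j k),
      ← Finset.mul_prod_erase Finset.univ _ (Finset.mem_univ j0)]
    have e2 : ∏ j ∈ Finset.univ.erase j0, ∑ k : K j,
        (if h : j = j0 then (if h ▸ k = i then rho j k else 0) else rho j k) = 1 := by
      refine Finset.prod_eq_one fun j hj => ?_
      rw [← h1 j]
      refine Finset.sum_congr rfl fun k _ => ?_
      rw [dif_neg (Finset.ne_of_mem_erase hj)]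
    rw [e2, mul_one]
    simp
  have h3 : ∀ w : (∀ j, K j), (∏ j, rho j (w j)) • g (w j0) =
      ∑ i, ((∏ j, rho j (w j)) * (if w j0 = i then 1 else 0)) • g i := by
    intro w
    simp [Finset.sum_ite_eq, ite_smul]
  rw [Finset.sum_congr rfl fun w _ => h3 w, Finset.sum_comm]
  refine Finset.sum_congr rfl fun i _ => ?_
  rw [← Finset.sum_smul, h2 i]

/-- a fact which is affine in the coordinates of the parameters is the mixture of its values at
the product corners -/
theorem affine_eval {E : Type*} [AddCommGroup E] [Module ℝ E] (rho : ∀ j, K j → ℝ)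
    (h1 : ∀ j, ∑ i, rho j i = 1) (C0 : E) (G : ∀ j, K j → E) :
    ∑ w : (∀ j, K j), (∏ j, rho j (w j)) • (C0 + ∑ j, G j (w j)) =
      C0 + ∑ j, ∑ i, rho j i • G j i := by
  simp only [smul_add, Finset.smul_sum, Finset.sum_add_distrib]
  rw [← Finset.sum_smul, prod_weight_sum rho h1, one_smul, Finset.sum_comm]
  congr 1
  exact Finset.sum_congr rfl fun j _ => prod_weight_coord rho h1 j (G j)

omit [DecidableEq J] [∀ j, Fintype (K j)] in
/-- the product weights are nonnegative -/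
theorem prod_weight_nonneg (rho : ∀ j, K j → ℝ) (h0 : ∀ j i, 0 ≤ rho j i) (w : ∀ j, K j) :
    0 ≤ ∏ j, rho j (w j) := Finset.prod_nonneg fun j _ => h0 j (w j)

end product

/-- the two corners of an affine parameter -/
theorem seg (x y t : ℝ) (h1 : x ≤ t) (h2 : t ≤ y) :
    ∃ rho : Fin 2 → ℝ, (∀ i, 0 ≤ rho i) ∧ ∑ i, rho i = 1 ∧ ∑ i, rho i * ![x, y] i = t := by
  rcases eq_or_lt_of_le (h1.trans h2) with hxy | hxy
  · refine ⟨![1, 0], ?_, ?_, ?_⟩
    · intro i
      fin_cases i <;> simp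
    · simp
    · simp only [Fin.sum_univ_two, Matrix.cons_val_zero, Matrix.cons_val_one]
      linarith
  · have hd : 0 < y - x := by linarith
    refine ⟨![(y - t) / (y - x), (t - x) / (y - x)], ?_, ?_, ?_⟩
    · intro i
      fin_cases i
      · exact div_nonneg (by linarith) hd.le
      · exact div_nonneg (by linarith) hd.le
    · simp only [Fin.sum_univ_two, Matrix.cons_val_zero, Matrix.cons_val_one]
      rw [← add_div, div_eq_one_iff_eq hd.ne']
      ring
    · simp only [Fin.sum_univ_two, Matrix.cons_val_zero, Matrix.cons_val_one]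
      have := hd.ne'
      field_simp
      ring

end Pool.Agent.Helper66.FL
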